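import Pool.Agent.Lib.MP_52ecc8_gt_h75.Fin

open MP_52ecc8_gt_h60

universe u

/-- **Theorem.** Let `φ` be an injective endomorphism of a group `Γ` whose image has finite index
(for instance `φ = h_#` on `Γ = π₁(M)` for a self-covering as in the problem), and let `E` be a
virtually polycyclic normal subgroup of `Γ` which satisfies `φ⁻¹(E) = E` or is the largest
virtually polycyclic normal subgroup of `Γ`.  Then `φ⁻¹(E) = E` in both cases, and if the iterated
image `⋂ₖ φ̄ᵏ(Γ/E)` of the induced endomorphism `φ̄` of `Γ/E` is finitely generated (finitely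
presented), then so is the iterated image `⋂ₖ φᵏ(Γ)` of `φ`.  In particular the latter is finitely
presented if `Γ` is finitely presented and `Γ/E` is not isomorphic to a proper subgroup of finite
index of itself. -/
theorem Pool.Agent.Results.MP_52ecc8_gt.PolycyclicRadical.result
    {Γ : Type u} [Group Γ] (φ : Γ →* Γ) (hφ : Function.Injective φ)
    (hfi : φ.range.FiniteIndex) (E : Subgroup Γ) [E.Normal] (hE : VirtuallyPolycyclic E)
    (h : (∀ x, φ x ∈ E ↔ x ∈ E) ∨
      (∀ E' : Subgroup Γ, E'.Normal → VirtuallyPolycyclic E' → E' ≤ E)) :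
    ∃ h1 : ∀ x ∈ E, φ x ∈ E, (∀ x, φ x ∈ E → x ∈ E) ∧
      (Group.FG (core (quot φ E h1)) → Group.FG (core φ)) ∧
      (Group.IsFinitelyPresented (core (quot φ E h1)) →
        Group.IsFinitelyPresented (core φ)) ∧
      (Group.IsFinitelyPresented Γ →
        (∀ ψ : Γ ⧸ E →* Γ ⧸ E, Function.Injective ψ → ψ.range.FiniteIndex →
          Function.Surjective ψ) →
        Group.IsFinitelyPresented (core φ)) :=
  MP_52ecc8_gt_h75.final φ hφ hfi E hE h
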